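import Mathlib
import Pool.Agent.H710R2.DP.Defs
import Pool.Agent.H710R2.DP.Defs2
import Pool.Agent.H710R2.DP.Tasks

/-!
Fibres of pieces of the first kind (helper902).
-/

open scoped ComplexOrder InnerProductSpace ComplexConjugate
open Finset

noncomputable section

namespace H710R2.DP

open H759R2.Kad

namespace RA902

variable {B : Type} [CStarAlgebra B] {L : ℕ} (F : Fin L → Fin L → B)

/-- `Y ↦ ∑ Y i j • F i j` -/
def comb (Y : CStarMatrix (Fin L) (Fin L) ℂ) : B := ∑ i, ∑ j, Y i j • F i j

variable {F}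

theorem comb_mul (hmul : ∀ i j k l, F i j * F k l = if j = k then F i l else 0)
    (Y Z : CStarMatrix (Fin L) (Fin L) ℂ) : comb F (Y * Z) = comb F Y * comb F Z := by
  have h1 : comb F (Y * Z) = ∑ i, ∑ l, ∑ j, (Y i j * Z j l) • F i l := by
    simp only [comb, CStarMatrix.mul_apply, Finset.sum_smul]
  have h2 : comb F Y * comb F Z = ∑ i, ∑ j, ∑ k, ∑ l, (Y i j * Z k l) • (F i j * F k l) := by
    unfold comb
    rw [Finset.sum_mul]
    refine Finset.sum_congr rfl fun i _ => ?_
    rw [Finset.sum_mul]
    refine Finset.sum_congr rfl fun j _ => ?_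
    rw [Finset.mul_sum]
    refine Finset.sum_congr rfl fun k _ => ?_
    rw [Finset.mul_sum]
    refine Finset.sum_congr rfl fun l _ => ?_
    rw [smul_mul_smul_comm]
  rw [h1, h2]
  refine Finset.sum_congr rfl fun i _ => ?_
  rw [Finset.sum_comm]
  refine Finset.sum_congr rfl fun j _ => ?_
  symm
  rw [Finset.sum_eq_single j]
  · simp [hmul]
  · intro k _ hk
    simp [hmul, Ne.symm hk]
  · simp

theorem comb_one (hsum : ∑ i, F i i = 1) : comb F 1 = 1 := by
  rw [← hsum]
  simp only [comb]
  refine Finset.sum_congr rfl fun i _ => ?_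
  rw [Finset.sum_eq_single i]
  · rw [CStarMatrix.one_apply_eq, one_smul]
  · intro j _ hj
    rw [CStarMatrix.one_apply_ne (Ne.symm hj), zero_smul]
  · simp

theorem comb_star (hst : ∀ i j, star (F i j) = F j i)
    (Y : CStarMatrix (Fin L) (Fin L) ℂ) : comb F (star Y) = star (comb F Y) := by
  simp only [comb, star_sum, star_smul, hst, CStarMatrix.star_apply]
  rw [Finset.sum_comm]

/-- the star homomorphism -/
def combH (hmul : ∀ i j k l, F i j * F k l = if j = k then F i l else 0)
    (hst : ∀ i j, star (F i j) = F j i) (hsum : ∑ i, F i i = 1) :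
    CStarMatrix (Fin L) (Fin L) ℂ →⋆ₐ[ℂ] B where
  toFun := comb F
  map_one' := comb_one hsum
  map_mul' := comb_mul hmul
  map_zero' := by simp [comb]
  map_add' Y Z := by simp [comb, add_smul, Finset.sum_add_distrib]
  commutes' c := by
    have : (algebraMap ℂ (CStarMatrix (Fin L) (Fin L) ℂ) c) = c • 1 := Algebra.algebraMap_eq_smul_one c
    rw [this, Algebra.algebraMap_eq_smul_one, ← comb_one hsum]
    simp only [comb, CStarMatrix.smul_apply, Finset.smul_sum, smul_smul, smul_eq_mul]
  map_star' := comb_star hst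

end RA902

open RA902 in
theorem dp_RA : R_A := by
  intro H _ _ _ M p hp hA B _ _ _ φ hφ hcen hone hB
  obtain ⟨n, e, hMU, hx⟩ := hA
  set E : Fin (n + 1) → Fin (n + 1) → M.toStarSubalgebra := fun i j => ⟨e i j, hMU.mem i j⟩ with hE
  set F : Fin (n + 1) → Fin (n + 1) → B := fun i j => φ (E i j) with hF
  have hmul : ∀ i j k l, F i j * F k l = if j = k then F i l else 0 := by
    intro i j k l
    have : E i j * E k l = if j = k then E i l else 0 := by
      apply Subtype.ext
      have := hMU.mul i j k l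
      split_ifs with h
      · simpa [hE, h] using! this
      · simpa [hE, h] using! this
    simp only [hF, ← map_mul, this]
    split_ifs <;> simp
  have hst : ∀ i j, star (F i j) = F j i := by
    intro i j
    have : star (E i j) = E j i := Subtype.ext (hMU.adj i j)
    simp only [hF, ← map_star, this]
  have hsum : ∑ i, F i i = 1 := by
    have : φ (∑ i, E i i) = 1 := by
      apply hone
      have := hMU.sum
      rw [← this]
      simp [hE]
    rw [← this, map_sum]
  have hF0 : F 0 0 ≠ 0 := by
    intro h0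
    have : ∀ k, F k k = 0 := by
      intro k
      have h1 : F k k = F k 0 * F 0 0 * F 0 k := by
        rw [hmul, if_pos rfl, hmul, if_pos rfl]
      rw [h1, h0, mul_zero, zero_mul]
    have h2 : (1 : B) = 0 := by
      rw [← hsum]
      exact Finset.sum_eq_zero fun k _ => this k
    exact one_ne_zero h2
  -- corner
  have hcor : ∀ b : B, ∃ c : ℂ, F 0 0 * b * F 0 0 = c • F 0 0 := by
    intro b
    obtain ⟨x, rfl⟩ := hφ b
    have hcl : IsClosed ((Submodule.span ℂ {F 0 0} : Submodule ℂ B) : Set B) :=
      Submodule.closed_of_finiteDimensional _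
    have hmem : F 0 0 * φ x * F 0 0 ∈ (Submodule.span ℂ {F 0 0} : Submodule ℂ B) := by
      rw [← SetLike.mem_coe, ← hcl.closure_eq, Metric.mem_closure_iff]
      intro ε hε
      obtain ⟨z, hz, hzn⟩ := hx x x.2 (ε / 2) (by positivity)
      obtain ⟨c, hc⟩ := hcen ⟨z, hz.1⟩ hz
      refine ⟨c • F 0 0, Submodule.smul_mem _ _ (Submodule.mem_span_singleton_self _), ?_⟩
      rw [dist_eq_norm]
      have h1 : F 0 0 * φ x * F 0 0 - c • F 0 0 =
          φ (E 0 0 * x * E 0 0 - ⟨z, hz.1⟩ * E 0 0) := by
        rw [map_sub, map_mul, map_mul, map_mul, hc, Algebra.algebraMap_eq_smul_one, smul_mul_assoc,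
          one_mul]
      rw [h1]
      refine (NonUnitalStarAlgHom.norm_apply_le φ _).trans_lt ?_
      have h2 : ‖E 0 0 * x * E 0 0 - ⟨z, hz.1⟩ * E 0 0‖ ≤ ε / 2 := hzn
      linarith
    obtain ⟨c, hc⟩ := Submodule.mem_span_singleton.1 hmem
    exact ⟨c, hc.symm⟩
  choose cf hcf using hcor
  refine ⟨n, ⟨(StarAlgEquiv.ofBijective (combH hmul hst hsum) ⟨?_, ?_⟩).symm⟩⟩
  · rw [injective_iff_map_eq_zero]
    intro Y hY
    have hY' : comb F Y = 0 := hY
    apply CStarMatrix.ext
    intro k l
    have h1 : F 0 k * comb F Y * F l 0 = Y k l • F 0 0 := by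
      simp only [comb, Finset.mul_sum, Finset.sum_mul, mul_smul_comm, smul_mul_assoc, hmul]
      rw [Finset.sum_eq_single k, Finset.sum_eq_single l]
      · simp [hmul]
      · intro j _ hj; simp [hmul, hj]
      · simp
      · intro i _ hi; simp [Ne.symm hi]
      · simp
    rw [hY', mul_zero, zero_mul] at h1
    exact (smul_eq_zero.1 h1.symm).resolve_right hF0
  · intro b
    refine ⟨CStarMatrix.ofMatrix fun i j => cf (F 0 i * b * F j 0), ?_⟩
    change comb F _ = b
    have h1 : b = ∑ i, ∑ j, F i i * b * F j j := by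
      calc b = 1 * b * 1 := by simp
        _ = _ := by
          rw [← hsum]
          simp only [Finset.sum_mul, Finset.mul_sum]
          exact Finset.sum_comm
    conv_rhs => rw [h1]
    simp only [comb]
    refine Finset.sum_congr rfl fun i _ => Finset.sum_congr rfl fun j _ => ?_
    change cf (F 0 i * b * F j 0) • F i j = _
    have h2 : F i j = F i 0 * F 0 0 * F 0 j := by
      rw [hmul, if_pos rfl, hmul, if_pos rfl]
    rw [h2, ← smul_mul_assoc, ← mul_smul_comm, ← hcf]
    have h3 : F i 0 * (F 0 0 * (F 0 i * b * F j 0) * F 0 0) * F 0 j =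
        (F i 0 * F 0 0 * F 0 i) * b * (F j 0 * F 0 0 * F 0 j) := by
      simp only [mul_assoc]
    rw [h3]
    simp only [hmul, if_true]

end H710R2.DP
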